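import Mathlib

set_option autoImplicit false

open Filter

namespace Pool.Agent.W13

/-- the Gauss map -/
noncomputable def gm (y : ℝ) : ℝ := Int.fract (1 / y)

/-- digits tend to infinity -/
def GD (y : ℝ) : Prop :=
  Tendsto (fun n : ℕ => ⌊1 / (gm^[n] y)⌋) atTop atTop

theorem gm_inv (a : ℕ) (y : ℝ) (h0 : 0 ≤ y) (h1 : y < 1) : gm (1 / (a + y)) = y := by
  unfold gm
  rw [one_div_one_div]
  rw [add_comm, Int.fract_add_natCast]
  exact Int.fract_eq_self.2 ⟨h0, h1⟩

theorem floor_inv (a : ℕ) (y : ℝ) (h0 : 0 ≤ y) (h1 : y < 1) : ⌊1 / (1 / ((a : ℝ) + y))⌋ = a := by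
  rw [one_div_one_div]
  rw [Int.floor_eq_iff]
  push_cast
  constructor <;> linarith

theorem GD_of_gm {y : ℝ} (h : GD (gm y)) : GD y := by
  unfold GD at *
  rw [← tendsto_add_atTop_iff_nat 1]
  refine h.congr ?_
  intro n
  rw [Function.iterate_add_apply]
  rfl

theorem GD_inv (a : ℕ) (y : ℝ) (h0 : 0 ≤ y) (h1 : y < 1) (h : GD y) : GD (1 / (a + y)) := by
  apply GD_of_gm
  rw [gm_inv a y h0 h1]; exact h

/-- sequence version. -/
theorem GD_seq (h : ℕ → ℝ) (c : ℕ → Prop) (a : ℕ → ℕ)
    (h0 : ∀ t, 0 < h t) (h1 : ∀ t, h t < 1)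
    (hc : ∀ t, c t → h t = 1 / (a t + h (t+1)))
    (hn : ∀ t, ¬ c t → h t = h (t+1))
    (hio : ∀ t, ∃ t', t ≤ t' ∧ c t')
    (ha : Tendsto a atTop atTop) : ∀ t, GD (h t) := by
  -- next index
  have key : ∀ t, ∃ t', t ≤ t' ∧ c t' ∧ h t = h t' := by
    intro t
    obtain ⟨t', ht, hct⟩ := hio t
    classical
    -- least
    have hex : ∃ k, c (t + k) := ⟨t' - t, by rwa [Nat.add_sub_cancel' ht]⟩
    let k := Nat.find hex
    have hk : c (t + k) := Nat.find_spec hex
    have hmin : ∀ j, j < k → ¬ c (t + j) := fun j hj => Nat.find_min hex hj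
    have : ∀ j, j ≤ k → h t = h (t + j) := by
      intro j
      induction j with
      | zero => intro _; rfl
      | succ j ih =>
        intro hj
        rw [ih (by omega), hn _ (hmin j (by omega))]
        rfl
    exact ⟨t + k, by omega, hk, this k le_rfl⟩
  have claim1 : ∀ (K : ℕ) (t0 : ℕ), (∀ t, t0 ≤ t → K ≤ a t) → ∀ n t, t0 ≤ t →
      (K : ℤ) ≤ ⌊1 / (gm^[n] (h t))⌋ := by
    intro K t0 hK n
    induction n with
    | zero =>
      intro t ht
      obtain ⟨t', htt, hct, he⟩ := key t
      simp only [Function.iterate_zero, id_eq]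
      rw [he, hc t' hct, floor_inv _ _ (h0 _).le (h1 _)]
      exact_mod_cast hK t' (by omega)
    | succ n ih =>
      intro t ht
      obtain ⟨t', htt, hct, he⟩ := key t
      rw [Function.iterate_succ_apply, he, hc t' hct, gm_inv _ _ (h0 _).le (h1 _)]
      exact ih (t'+1) (by omega)
  intro t
  unfold GD
  rw [tendsto_atTop_atTop]
  intro b
  obtain ⟨t0, ht0⟩ := (tendsto_atTop_atTop.1 ha) b.toNat
  -- claim2
  have claim2 : ∀ j, ∃ N, gm^[N] (h t) = h (t + j) := by
    intro j
    induction j with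
    | zero => exact ⟨0, rfl⟩
    | succ j ih =>
      obtain ⟨N, hN⟩ := ih
      by_cases hcj : c (t + j)
      · refine ⟨N + 1, ?_⟩
        rw [Function.iterate_succ_apply', hN, hc _ hcj, gm_inv _ _ (h0 _).le (h1 _)]
        rfl
      · refine ⟨N, ?_⟩
        rw [hN, hn _ hcj]
        rfl
  obtain ⟨N, hN⟩ := claim2 t0
  refine ⟨N, fun n hn' => ?_⟩
  obtain ⟨m, rfl⟩ := Nat.exists_eq_add_of_le hn'
  rw [add_comm, Function.iterate_add_apply, hN]
  have := claim1 b.toNat t0 ht0 m (t + t0) (by omega)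
  have h2 : b ≤ (b.toNat : ℤ) := Int.self_le_toNat b
  exact h2.trans this

/-- compactness: existence of tails -/
theorem exists_tails (c : ℕ → Prop) (a : ℕ → ℕ) (ha : ∀ t, 1 ≤ a t)
    (hio : ∀ t, ∃ t', t ≤ t' ∧ c t') :
    ∃ h : ℕ → ℝ, (∀ t, 0 < h t) ∧ (∀ t, h t < 1) ∧
      (∀ t, c t → h t = 1 / (a t + h (t+1))) ∧ (∀ t, ¬ c t → h t = h (t+1)) := by
  classical
  let f : ℕ → ℝ → ℝ := fun t y => if c t then 1 / (a t + y) else y
  have fmem : ∀ t y, y ∈ Set.Icc (0:ℝ) 1 → f t y ∈ Set.Icc (0:ℝ) 1 := by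
    intro t y hy
    simp only [f]
    split_ifs with h
    · have h1 : (1:ℝ) ≤ a t := by exact_mod_cast ha t
      constructor
      · have := hy.1; positivity
      · rw [div_le_one (by linarith [hy.1])]; linarith [hy.1]
    · exact hy
  -- the compact space of sequences
  let X : Set (ℕ → ℝ) := Set.pi Set.univ (fun _ => Set.Icc (0:ℝ) 1)
  have hX : IsCompact X := isCompact_univ_pi (fun _ => isCompact_Icc)
  let F : ℕ → Set (ℕ → ℝ) := fun n => X ∩ {h | ∀ t, t < n → h t = f t (h (t+1))}
  -- closedness: rewrite as closed conditions on X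
  have hFc : ∀ n, IsClosed (F n) := by
    intro n
    have : F n = ⋂ t, (X ∩ {h : ℕ → ℝ | t < n → (if c t then h t * (a t + h (t+1)) = 1 else h t = h (t+1))}) := by
      ext h
      simp only [F, Set.mem_inter_iff, Set.mem_setOf_eq, Set.mem_iInter]
      constructor
      · rintro ⟨hx, hh⟩ t
        refine ⟨hx, fun ht => ?_⟩
        have := hh t ht
        simp only [f] at this
        split_ifs at this ⊢ with hct
        · rw [this]
          have h1 : (1:ℝ) ≤ a t := by exact_mod_cast ha t
          have h2 : (0:ℝ) ≤ h (t+1) := (hx (t+1) (Set.mem_univ _)).1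
          rw [one_div_mul_cancel (by linarith)]
        · exact this
      · intro hh
        refine ⟨(hh 0).1, fun t ht => ?_⟩
        have hx := (hh 0).1
        have := (hh t).2 ht
        simp only [f]
        split_ifs at this ⊢ with hct
        · have h1 : (1:ℝ) ≤ a t := by exact_mod_cast ha t
          have h2 : (0:ℝ) ≤ h (t+1) := (hx (t+1) (Set.mem_univ _)).1
          rw [eq_div_iff (by linarith)]; exact this
        · exact this
    rw [this]
    refine isClosed_iInter fun t => ?_
    refine (hX.isClosed).inter ?_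
    by_cases htn : t < n
    · by_cases hct : c t
      · simp only [htn, hct, if_true, forall_true_left]
        exact isClosed_eq (by fun_prop) (by fun_prop)
      · simp only [htn, hct, if_false, forall_true_left]
        exact isClosed_eq (by fun_prop) (by fun_prop)
    · simp [htn]
  have hFcomp : ∀ n, IsCompact (F n) := fun n => hX.of_isClosed_subset (hFc n) Set.inter_subset_left
  have hFne : ∀ n, (F n).Nonempty := by
    intro n
    -- backward recursion: define g k = value at position n-k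
    let g : ℕ → ℝ := fun k => Nat.rec (motive := fun _ => ℝ) 0 (fun k y => f (n - (k+1)) y) k
    have g0 : g 0 = 0 := rfl
    have gs : ∀ k, g (k+1) = f (n - (k+1)) (g k) := fun k => rfl
    have gmem : ∀ k, g k ∈ Set.Icc (0:ℝ) 1 := by
      intro k
      induction k with
      | zero => rw [g0]; exact ⟨le_rfl, zero_le_one⟩
      | succ k ih => rw [gs]; exact fmem _ _ ih
    refine ⟨fun t => g (n - t), ?_, ?_⟩
    · intro t _; exact gmem _
    · intro t ht
      show g (n - t) = f t (g (n - (t+1)))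
      have e : n - t = (n - (t+1)) + 1 := by omega
      rw [e, gs]
      congr 1
      omega
  have hmono : ∀ n, F (n+1) ⊆ F n := by
    intro n h hh
    exact ⟨hh.1, fun t ht => hh.2 t (by omega)⟩
  obtain ⟨h, hh⟩ := IsCompact.nonempty_iInter_of_sequence_nonempty_isCompact_isClosed F hmono hFne
    (hFcomp 0) hFc
  rw [Set.mem_iInter] at hh
  have hx : ∀ t, h t ∈ Set.Icc (0:ℝ) 1 := fun t => (hh 0).1 t (Set.mem_univ _)
  have hrec : ∀ t, h t = f t (h (t+1)) := fun t => (hh (t+1)).2 t (Nat.lt_succ_self t)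
  have hc : ∀ t, c t → h t = 1 / (a t + h (t+1)) := by
    intro t ht; rw [hrec t]; simp only [f, if_pos ht]
  have hn : ∀ t, ¬ c t → h t = h (t+1) := by
    intro t ht
    have := hrec t
    simp only [f, if_neg ht] at this
    exact this
  have key : ∀ t, ∃ t', t ≤ t' ∧ c t' ∧ h t = h t' := by
    intro t
    obtain ⟨t', ht, hct⟩ := hio t
    have hex : ∃ k, c (t + k) := ⟨t' - t, by rwa [Nat.add_sub_cancel' ht]⟩
    let k := Nat.find hex
    have hk : c (t + k) := Nat.find_spec hex
    have hmin : ∀ j, j < k → ¬ c (t + j) := fun j hj => Nat.find_min hex hj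
    have : ∀ j, j ≤ k → h t = h (t + j) := by
      intro j
      induction j with
      | zero => intro _; rfl
      | succ j ih =>
        intro hj
        rw [ih (by omega), hn _ (hmin j (by omega))]
        rfl
    exact ⟨t + k, by omega, hk, this k le_rfl⟩
  have hpos : ∀ t, 0 < h t := by
    intro t
    obtain ⟨t', _, hct, he⟩ := key t
    rw [he, hc t' hct]
    have h1 : (1:ℝ) ≤ a t' := by exact_mod_cast ha t'
    have h2 := (hx (t'+1)).1
    positivity
  refine ⟨h, hpos, ?_, hc, hn⟩
  intro t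
  obtain ⟨t', _, hct, he⟩ := key t
  rw [he, hc t' hct]
  have h1 : (1:ℝ) ≤ a t' := by exact_mod_cast ha t'
  have h2 := hpos (t'+1)
  rw [div_lt_one (by linarith)]
  linarith

end Pool.Agent.W13
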