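import Mathlib

set_option autoImplicit false

open Filter

namespace Pool.Agent.W13

structure St where
  Q : Bool → ℕ
  V : Bool → ℕ
  E : Bool → ℤ
  z : ℝ

noncomputable def upd (σ : St) (i : Bool) (a : ℕ) : St where
  Q := Function.update σ.Q i (a * σ.Q i + σ.V i)
  V := Function.update σ.V i (σ.Q i)
  E := Function.update σ.E i (-σ.E i)
  z := σ.z - σ.E i / (σ.Q i * (a * σ.Q i + σ.V i))

structure Base (σ : St) : Prop where
  hQ : ∀ j, 1 ≤ σ.Q j
  hV : ∀ j, σ.V j ≤ σ.Q j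
  hE : ∀ j, σ.E j = 1 ∨ σ.E j = -1
  irr : Irrational σ.z

theorem Base.upd {σ : St} (h : Base σ) (i : Bool) (a : ℕ) (ha : 1 ≤ a) : Base (upd σ i a) where
  hQ := by
    intro j
    by_cases hj : j = i
    · subst hj
      simp only [Pool.Agent.W13.upd, Function.update_self]
      have := h.hQ j
      nlinarith
    · simp only [Pool.Agent.W13.upd, Function.update_of_ne hj]
      exact h.hQ j
  hV := by
    intro j
    by_cases hj : j = i
    · subst hj
      simp only [Pool.Agent.W13.upd, Function.update_self]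
      have := h.hQ j
      nlinarith
    · simp only [Pool.Agent.W13.upd, Function.update_of_ne hj]
      exact h.hV j
  hE := by
    intro j
    by_cases hj : j = i
    · subst hj
      simp only [Pool.Agent.W13.upd, Function.update_self]
      rcases h.hE j with h | h <;> rw [h] <;> simp
    · simp only [Pool.Agent.W13.upd, Function.update_of_ne hj]
      exact h.hE j
  irr := by
    have : (Pool.Agent.W13.upd σ i a).z = σ.z - (((σ.E i : ℚ) / (σ.Q i * (a * σ.Q i + σ.V i)) : ℚ) : ℝ) := by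
      simp only [Pool.Agent.W13.upd]
      push_cast
      ring
    rw [this]
    exact h.irr.sub_ratCast _

/-- the complete quotient for side `i` if the other tail were absent. -/
noncomputable def al (σ : St) (i : Bool) : ℝ :=
  1 / ((σ.Q i : ℝ)^2 * (σ.E i * σ.z)) - σ.V i / σ.Q i

structure SInv (σ : St) (i : Bool) (R0 : ℝ) : Prop extends Base σ where
  same : σ.E (!i) = σ.E i
  pos : 0 < σ.E i * σ.z
  le : σ.Q i ≤ σ.Q (!i)
  R : R0 * (σ.Q i * σ.Q (!i) * (σ.E i * σ.z)) ≤ 1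

structure OInv (σ : St) (i : Bool) (R1 : ℝ) : Prop extends Base σ where
  opp : σ.E (!i) = - σ.E i
  pos : 0 < σ.E i * σ.z
  R : R1 * (σ.Q i * σ.Q (!i) * (σ.E i * σ.z)) ≤ 1
  b1 : 1 ≤ al σ i
  b2 : R1 - 2 ≤ al σ i

theorem al_ne (σ : St) (h : Base σ) (i : Bool) (hp : 0 < σ.E i * σ.z) (n : ℕ) (hn : 1 ≤ n) :
    al σ i ≠ n := by
  intro he
  have hq : (1:ℝ) ≤ σ.Q i := by exact_mod_cast h.hQ i
  have hv : (0:ℝ) ≤ σ.V i := by positivity
  unfold al at he
  have hw := hp.ne'
  set w := (σ.E i : ℝ) * σ.z with hwdef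
  have hn' : (1:ℝ) ≤ n := by exact_mod_cast hn
  have hA : (0:ℝ) < σ.Q i * n + σ.V i := by nlinarith
  have hw2 : w = 1 / (σ.Q i * (σ.Q i * n + σ.V i)) := by
    have hq0 : (σ.Q i : ℝ) ≠ 0 := by linarith
    rw [eq_div_iff (by positivity)]
    field_simp at he
    have h3 : (1:ℝ) - w * σ.Q i * σ.V i = n * σ.Q i ^ 2 * w := by
      nlinarith [he]
    nlinarith [h3]
  have hz : σ.z = ((σ.E i / (σ.Q i * (σ.Q i * n + σ.V i)) : ℚ) : ℝ) := by
    push_cast
    have he2 : (σ.E i : ℝ) * σ.E i = 1 := by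
      rcases h.hE i with h | h <;> rw [h] <;> simp
    calc σ.z = (σ.E i : ℝ) * σ.E i * σ.z := by rw [he2, one_mul]
      _ = σ.E i * w := by rw [hwdef]; ring
      _ = _ := by rw [hw2]; ring
  exact h.irr ⟨_, hz.symm⟩

/-- core identity -/
theorem core_id (q v w A α q' a : ℝ) (hq : 0 < q) (hw : 0 < w) (hA : A = 1 / (q * w))
    (hα : A = q * α + v) (hq' : q' = a * q + v) (hq'0 : 0 < q') :
    w - 1 / (q * q') = (a - α) / (q' * A) := by
  have hA0 : 0 < A := by rw [hA]; positivity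
  have hw2 : w = 1 / (q * A) := by rw [hA]; field_simp
  have e1 : q' - A = q * (a - α) := by rw [hq', hα]; ring
  rw [hw2]
  rw [div_sub_div _ _ (by positivity) (by positivity), div_eq_div_iff (by positivity) (by positivity)]
  have : (1 * (q * q') - q * A * 1) = q * (q * (a - α)) := by rw [← e1]; ring
  rw [this]; ring


theorem aux_norm (R0 s f A : ℝ) (hs : 0 < s) (hR : 0 ≤ R0) (hAR : R0 * s ≤ A) (hc : s ≤ f * A)
    (hf0 : 0 < f) (hf1 : f < 1) : (R0 + 1) * s * (1 - f) ≤ A := by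
  have h1 : (R0 * s) * (1 - f) ≤ A * (1 - f) := mul_le_mul_of_nonneg_right hAR (by linarith)
  have h2 : s * (1 - f) ≤ s := by nlinarith
  have h3 : (R0 + 1) * s * (1 - f) = (R0 * s) * (1 - f) + s * (1 - f) := by ring
  have h4 : A * (1 - f) = A - f * A := by ring
  rw [h3]; linarith

theorem aux_norm2 (R0 s f A q' : ℝ) (hs : 0 < s) (hR : 2 ≤ R0) (hAR : R0 * s ≤ A) 
    (hf0 : 0 < f) (hf1 : f < 1) (hq' : A < q') : R0 ≤ 1 / (s^2 * ((1 - f) / (q' * A))) := by
  have hA : 0 < A := lt_of_lt_of_le (by positivity) hAR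
  have hq : 0 < q' := by linarith
  have h1f : 0 < 1 - f := by linarith
  have e1 : 1 / (s^2 * ((1 - f) / (q' * A))) = q' * A / (s^2 * (1-f)) := by
    field_simp
  rw [e1, le_div_iff₀ (by positivity)]
  have hAs : s ≤ A := by nlinarith
  have h1 : R0 * s * s ≤ A * A := mul_le_mul hAR hAs hs.le hA.le
  have h2 : A * A ≤ q' * A := mul_le_mul_of_nonneg_right hq'.le hA.le
  have h3 : R0 * (s^2 * (1-f)) ≤ R0 * s * s := by
    have : R0 * (s^2 * (1-f)) = (R0 * s * s) * (1 - f) := by ring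
    rw [this]
    apply mul_le_of_le_one_right (by positivity)
    linarith
  linarith

theorem aux_trick (R0 s f A q' : ℝ) (hs : 0 < s) (hR : 2 ≤ R0) (hAR : R0 * s ≤ A) 
    (hf0 : 0 < f) (hq0 : 0 < q') (hq' : q' < A) (hc : f * A < s) :
    R0 ≤ 1 / (q'^2 * (f / (q' * A))) := by
  have hA : 0 < A := by linarith
  have e1 : 1 / (q'^2 * (f / (q' * A))) = A / (q' * f) := by
    field_simp
  rw [e1, le_div_iff₀ (by positivity)]
  have h3 : R0 * f ≤ 1 := by
    have h5 : (R0 * s) * f ≤ A * f := mul_le_mul_of_nonneg_right hAR hf0.le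
    have h4 : s * (R0 * f) ≤ s * 1 := by linarith
    exact le_of_mul_le_mul_left h4 hs
  calc R0 * (q' * f) = (R0 * f) * q' := by ring
    _ ≤ 1 * q' := by apply mul_le_mul_of_nonneg_right h3 hq0.le
    _ ≤ A := by linarith

theorem aux_trick2 (R0 s f A : ℝ) (hs : 0 < s) (hR : 2 ≤ R0) (hAR : R0 * s ≤ A) 
    (hf0 : 0 < f) (hA : 0 < A) (hc : f * A < s) : (R0+1) * (s * f) ≤ A := by
  have h1 : (R0+1) * (s * f) * A ≤ A * A := by
    have h3 : (R0 * s) * (R0 * s) ≤ A * A := mul_le_mul hAR hAR (by positivity) hA.le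
    have h4 : (R0 + 1) * (s * s) ≤ (R0 * R0) * (s * s) := by
      apply mul_le_mul_of_nonneg_right _ (by positivity)
      nlinarith
    have h5 : (R0+1) * s * (f * A) ≤ (R0+1) * s * s := by
      apply mul_le_mul_of_nonneg_left hc.le
      positivity
    have e1 : (R0+1) * (s * f) * A = (R0+1) * s * (f * A) := by ring
    have e2 : (R0 + 1) * (s * s) = (R0+1) * s * s := by ring
    have e3 : (R0 * s) * (R0 * s) = (R0 * R0) * (s * s) := by ring
    rw [e1]; linarith
  exact le_of_mul_le_mul_right h1 hA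

set_option maxHeartbeats 2000000 in
theorem S_step {σ : St} {i : Bool} {R0 : ℝ} (h : SInv σ i R0) (hR : 2 ≤ R0) :
    ∃ (i' : Bool) (a : ℕ), 1 ≤ a ∧ R0 - 2 ≤ a ∧ OInv (upd σ i a) i' (R0+1) := by
  have hni : (!i) ≠ i := by cases i <;> simp
  have hq : (1:ℝ) ≤ σ.Q i := by exact_mod_cast h.hQ i
  have hs : (1:ℝ) ≤ σ.Q (!i) := by exact_mod_cast h.hQ (!i)
  have hv : (0:ℝ) ≤ σ.V i := by positivity
  have hvq : (σ.V i : ℝ) ≤ σ.Q i := by exact_mod_cast h.hV i
  have hvs : (0:ℝ) ≤ σ.V (!i) := by positivity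
  have hvss : (σ.V (!i) : ℝ) ≤ σ.Q (!i) := by exact_mod_cast h.hV (!i)
  have hqs : (σ.Q i : ℝ) ≤ σ.Q (!i) := by exact_mod_cast h.le
  have hw := h.pos
  have hRR := h.R
  have halne := al_ne σ h.toBase i h.pos
  obtain ⟨α, hα⟩ : ∃ α, α = al σ i := ⟨_, rfl⟩
  rw [← hα] at halne
  have hαdef := hα
  unfold al at hα
  obtain ⟨q, hqd⟩ : ∃ q : ℝ, q = σ.Q i := ⟨_, rfl⟩
  obtain ⟨s, hsd⟩ : ∃ s : ℝ, s = σ.Q (!i) := ⟨_, rfl⟩
  obtain ⟨v, hvd⟩ : ∃ v : ℝ, v = σ.V i := ⟨_, rfl⟩
  obtain ⟨vs, hvsd⟩ : ∃ vs : ℝ, vs = σ.V (!i) := ⟨_, rfl⟩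
  obtain ⟨e, hed⟩ : ∃ e : ℝ, e = σ.E i := ⟨_, rfl⟩
  obtain ⟨w, hwd⟩ : ∃ w : ℝ, w = e * σ.z := ⟨_, rfl⟩
  have hes : ((σ.E (!i) : ℤ) : ℝ) = e := by rw [h.same, hed]
  rw [← hqd] at hq hvq hqs hRR hα
  rw [← hsd] at hs hvss hqs hRR
  rw [← hvd] at hv hvq hα
  rw [← hvsd] at hvs hvss
  rw [← hed, ← hwd] at hw hRR hα
  -- A
  obtain ⟨A, hAd⟩ : ∃ A : ℝ, A = 1 / (q * w) := ⟨_, rfl⟩
  have hqpos : 0 < q := by linarith
  have hspos : 0 < s := by linarith
  have hApos : 0 < A := by rw [hAd]; positivity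
  have hAα : A = q * α + v := by
    rw [hAd, hα]; field_simp; ring
  have hAR : R0 * s ≤ A := by
    rw [hAd, le_div_iff₀ (by positivity)]
    calc R0 * s * (q * w) = R0 * (q * s * w) := by ring
      _ ≤ 1 := hRR
  have hα1 : R0 - 1 ≤ α := by
    have : q * (R0 - 1) ≤ q * α := by nlinarith
    exact le_of_mul_le_mul_left this hqpos
  -- floor
  have hα0 : 0 ≤ α := by linarith
  obtain ⟨n, hnd⟩ : ∃ n : ℕ, n = ⌊α⌋₊ := ⟨_, rfl⟩
  have hn1 : (n:ℝ) ≤ α := by rw [hnd]; exact Nat.floor_le hα0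
  have hn2 : α < n + 1 := by rw [hnd]; exact Nat.lt_floor_add_one α
  have hn3 : 1 ≤ n := by rw [hnd]; exact Nat.le_floor (by push_cast; linarith)
  have hn3' : (1:ℝ) ≤ n := by exact_mod_cast hn3
  have hn4 : (n:ℝ) < α := lt_of_le_of_ne hn1 (fun hh => halne n hn3 hh.symm)
  obtain ⟨f, hf⟩ : ∃ f : ℝ, f = α - n := ⟨_, rfl⟩
  have hf0 : 0 < f := by linarith
  have hf1 : f < 1 := by linarith
  by_cases hcase : s ≤ f * A
  · -- normal
    refine ⟨!i, n+1, by omega, by push_cast; linarith, ?_⟩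
    have hb := h.toBase.upd i (n+1) (by omega)
    have hQi : ((upd σ i (n+1)).Q i : ℝ) = (n+1) * q + v := by
      simp [upd, hqd, hvd]
    have hQni : ((upd σ i (n+1)).Q (!i) : ℝ) = s := by
      simp [upd, Function.update_of_ne hni, hsd]
    have hVni : ((upd σ i (n+1)).V (!i) : ℝ) = vs := by
      simp [upd, Function.update_of_ne hni, hvsd]
    have hEni : ((upd σ i (n+1)).E (!i) : ℝ) = e := by
      simp only [upd, Function.update_of_ne hni, hes]
    have hz : e * (upd σ i (n+1)).z = w - 1 / (q * ((n+1) * q + v)) := by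
      simp only [upd]
      have he2 : e * e = 1 := by
        rw [hed]
        rcases h.hE i with h | h <;> rw [h] <;> simp
      push_cast
      rw [← hqd, ← hvd, ← hed, hwd, mul_sub, ← mul_div_assoc, he2]
    obtain ⟨q', hq'⟩ : ∃ q' : ℝ, q' = (n+1) * q + v := ⟨_, rfl⟩
    have hq'A : q' - A = q * (1 - f) := by rw [hq', hAα, hf]; ring
    have hq'gt : A < q' := by
      have := mul_pos hqpos (show 0 < 1 - f by linarith)
      linarith
    have hz2 : e * (upd σ i (n+1)).z = (1 - f) / (q' * A) := by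
      rw [hz, ← hq']
      rw [core_id q v w A α q' (n+1) hqpos hw hAd hAα hq' (by linarith)]
      congr 1
      rw [hf]; ring
    have hkey : (R0+1) * s * (1-f) ≤ A := aux_norm R0 s f A hspos (by linarith) hAR hcase hf0 hf1
    refine { toBase := hb, opp := ?_, pos := ?_, R := ?_, b1 := ?_, b2 := ?_ }
    · simp only [upd, Function.update_of_ne hni, Bool.not_not, Function.update_self, h.same]
    · rw [hEni, hz2]
      have hq'pos : 0 < q' := by linarith
      exact div_pos (by linarith) (mul_pos hq'pos hApos)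
    · rw [Bool.not_not, hQni, hQi, ← hq', hEni, hz2]
      have hq'pos : 0 < q' := by linarith
      have : s * q' * ((1 - f) / (q' * A)) = s * (1-f) / A := by
        field_simp
      rw [this, ← mul_div_assoc, div_le_one hApos, ← mul_assoc]
      exact hkey
    · unfold al
      rw [hQni, hEni, hz2, hVni]
      have h1 : vs / s ≤ 1 := by rw [div_le_one hspos]; exact hvss
      have h2 : R0 ≤ 1 / (s^2 * ((1 - f) / (q' * A))) :=
        aux_norm2 R0 s f A q' hspos hR hAR hf0 hf1 hq'gt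
      linarith
    · unfold al
      rw [hQni, hEni, hz2, hVni]
      have h1 : vs / s ≤ 1 := by rw [div_le_one hspos]; exact hvss
      have h2 : R0 ≤ 1 / (s^2 * ((1 - f) / (q' * A))) :=
        aux_norm2 R0 s f A q' hspos hR hAR hf0 hf1 hq'gt
      linarith
  · -- trick
    push Not at hcase
    refine ⟨i, n, hn3, by linarith, ?_⟩
    have hb := h.toBase.upd i n hn3
    have hQi : ((upd σ i n).Q i : ℝ) = n * q + v := by
      simp [upd, hqd, hvd]
    have hQni : ((upd σ i n).Q (!i) : ℝ) = s := by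
      simp [upd, Function.update_of_ne hni, hsd]
    have hVi : ((upd σ i n).V i : ℝ) = q := by
      simp [upd, hqd]
    have hEi : ((upd σ i n).E i : ℝ) = -e := by
      simp [upd, hed]
    have hz : e * (upd σ i n).z = w - 1 / (q * (n * q + v)) := by
      simp only [upd]
      have he2 : e * e = 1 := by
        rw [hed]
        rcases h.hE i with h | h <;> rw [h] <;> simp
      rw [← hqd, ← hvd, ← hed, hwd, mul_sub, ← mul_div_assoc, he2]
    obtain ⟨q', hq'⟩ : ∃ q' : ℝ, q' = n * q + v := ⟨_, rfl⟩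
    have hq'A : A - q' = q * f := by rw [hq', hAα, hf]; ring
    have hq'lt : q' < A := by
      have := mul_pos hqpos hf0
      linarith
    have hqq' : q ≤ q' := by
      have := mul_le_mul_of_nonneg_right hn3' hqpos.le
      linarith
    have hq'pos : 0 < q' := by linarith
    have hz2 : -e * (upd σ i n).z = f / (q' * A) := by
      rw [neg_mul, hz, ← hq']
      rw [core_id q v w A α q' n hqpos hw hAd hAα hq' hq'pos]
      rw [← neg_div]
      congr 1
      rw [hf]; ring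
    refine { toBase := hb, opp := ?_, pos := ?_, R := ?_, b1 := ?_, b2 := ?_ }
    · simp only [upd, Function.update_of_ne hni, Function.update_self, h.same, neg_neg]
    · rw [hEi, hz2]
      positivity
    · rw [hQni, hQi, ← hq', hEi, hz2]
      have : q' * s * (f / (q' * A)) = s * f / A := by
        field_simp
      rw [this, ← mul_div_assoc, div_le_one hApos]
      exact aux_trick2 R0 s f A hspos hR hAR hf0 hApos hcase
    · unfold al
      rw [hQi, hEi, hz2, hVi, ← hq']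
      have h1 : q / q' ≤ 1 := by rw [div_le_one hq'pos]; exact hqq'
      have h2 : R0 ≤ 1 / (q'^2 * (f / (q' * A))) :=
        aux_trick R0 s f A q' hspos hR hAR hf0 hq'pos hq'lt hcase
      linarith
    · unfold al
      rw [hQi, hEi, hz2, hVi, ← hq']
      have h1 : q / q' ≤ 1 := by rw [div_le_one hq'pos]; exact hqq'
      have h2 : R0 ≤ 1 / (q'^2 * (f / (q' * A))) :=
        aux_trick R0 s f A q' hspos hR hAR hf0 hq'pos hq'lt hcase
      linarith

set_option maxHeartbeats 2000000 in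
theorem O_step {σ : St} {i : Bool} {R1 : ℝ} (h : OInv σ i R1) (hR : 2 ≤ R1) :
    ∃ (a : ℕ), 1 ≤ a ∧ R1 - 3 ≤ a ∧ SInv (upd σ i a) (!i) R1 := by
  have hni : (!i) ≠ i := by cases i <;> simp
  have hq : (1:ℝ) ≤ σ.Q i := by exact_mod_cast h.hQ i
  have hs : (1:ℝ) ≤ σ.Q (!i) := by exact_mod_cast h.hQ (!i)
  have hv : (0:ℝ) ≤ σ.V i := by positivity
  have hvq : (σ.V i : ℝ) ≤ σ.Q i := by exact_mod_cast h.hV i
  have hw := h.pos
  have hRR := h.R
  have hb1 := h.b1
  have hb2 := h.b2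
  have halne := al_ne σ h.toBase i h.pos
  obtain ⟨α, hα⟩ : ∃ α, α = al σ i := ⟨_, rfl⟩
  rw [← hα] at halne hb1 hb2
  have hαdef := hα
  unfold al at hα
  obtain ⟨q, hqd⟩ : ∃ q : ℝ, q = σ.Q i := ⟨_, rfl⟩
  obtain ⟨s, hsd⟩ : ∃ s : ℝ, s = σ.Q (!i) := ⟨_, rfl⟩
  obtain ⟨v, hvd⟩ : ∃ v : ℝ, v = σ.V i := ⟨_, rfl⟩
  obtain ⟨e, hed⟩ : ∃ e : ℝ, e = σ.E i := ⟨_, rfl⟩
  obtain ⟨w, hwd⟩ : ∃ w : ℝ, w = e * σ.z := ⟨_, rfl⟩
  have hes : ((σ.E (!i) : ℤ) : ℝ) = -e := by rw [h.opp, hed]; push_cast; ring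
  rw [← hqd] at hq hvq hRR hα
  rw [← hsd] at hs hRR
  rw [← hvd] at hv hvq hα
  rw [← hed, ← hwd] at hw hRR hα
  obtain ⟨A, hAd⟩ : ∃ A : ℝ, A = 1 / (q * w) := ⟨_, rfl⟩
  have hqpos : 0 < q := by linarith
  have hspos : 0 < s := by linarith
  have hApos : 0 < A := by rw [hAd]; positivity
  have hAα : A = q * α + v := by
    rw [hAd, hα]; field_simp; ring
  have hAR : R1 * s ≤ A := by
    rw [hAd, le_div_iff₀ (by positivity)]
    calc R1 * s * (q * w) = R1 * (q * s * w) := by ring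
      _ ≤ 1 := hRR
  have hα0 : 0 ≤ α := by linarith
  obtain ⟨n, hnd⟩ : ∃ n : ℕ, n = ⌊α⌋₊ := ⟨_, rfl⟩
  have hn1 : (n:ℝ) ≤ α := by rw [hnd]; exact Nat.floor_le hα0
  have hn2 : α < n + 1 := by rw [hnd]; exact Nat.lt_floor_add_one α
  have hn3 : 1 ≤ n := by rw [hnd]; exact Nat.le_floor (by push_cast; linarith)
  have hn3' : (1:ℝ) ≤ n := by exact_mod_cast hn3
  have hn4 : (n:ℝ) < α := lt_of_le_of_ne hn1 (fun hh => halne n hn3 hh.symm)
  obtain ⟨f, hf⟩ : ∃ f : ℝ, f = α - n := ⟨_, rfl⟩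
  have hf0 : 0 < f := by linarith
  have hf1 : f < 1 := by linarith
  refine ⟨n, hn3, by linarith, ?_⟩
  have hb := h.toBase.upd i n hn3
  have hQi : ((upd σ i n).Q i : ℝ) = n * q + v := by
    simp [upd, hqd, hvd]
  have hQni : ((upd σ i n).Q (!i) : ℝ) = s := by
    simp [upd, Function.update_of_ne hni, hsd]
  have hEni : ((upd σ i n).E (!i) : ℝ) = -e := by
    simp only [upd, Function.update_of_ne hni, hes]
  have hz : e * (upd σ i n).z = w - 1 / (q * (n * q + v)) := by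
    simp only [upd]
    have he2 : e * e = 1 := by
      rw [hed]
      rcases h.hE i with h | h <;> rw [h] <;> simp
    rw [← hqd, ← hvd, ← hed, hwd, mul_sub, ← mul_div_assoc, he2]
  obtain ⟨q', hq'⟩ : ∃ q' : ℝ, q' = n * q + v := ⟨_, rfl⟩
  have hq'A : A - q' = q * f := by rw [hq', hAα, hf]; ring
  have hq'lt : q' < A := by
    have := mul_pos hqpos hf0
    linarith
  have hqq' : q ≤ q' := by
    have := mul_le_mul_of_nonneg_right hn3' hqpos.le
    linarith
  have hq'pos : 0 < q' := by linarith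
  have hz2 : -e * (upd σ i n).z = f / (q' * A) := by
    rw [neg_mul, hz, ← hq']
    rw [core_id q v w A α q' n hqpos hw hAd hAα hq' hq'pos]
    rw [← neg_div]
    congr 1
    rw [hf]; ring
  refine { toBase := hb, same := ?_, pos := ?_, le := ?_, R := ?_ }
  · simp only [upd, Function.update_of_ne hni, Bool.not_not, Function.update_self, h.opp]
  · rw [hEni, hz2]; positivity
  · have : ((upd σ i n).Q (!i) : ℝ) ≤ ((upd σ i n).Q (!(!i)) : ℝ) := by
      rw [Bool.not_not, hQi, hQni, ← hq']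
      rcases le_total q s with hqs | hqs
      · have h1 : q * f ≤ q * 1 := mul_le_mul_of_nonneg_left hf1.le hqpos.le
        have h2 : 2 * s ≤ R1 * s := mul_le_mul_of_nonneg_right hR hspos.le
        linarith
      · linarith
    exact_mod_cast this
  · rw [Bool.not_not, hQni, hQi, ← hq', hEni, hz2]
    have : s * q' * (f / (q' * A)) = s * f / A := by
      field_simp
    rw [this, ← mul_div_assoc, div_le_one hApos]
    calc R1 * (s * f) = (R1 * s) * f := by ring
      _ ≤ (R1 * s) * 1 := by apply mul_le_mul_of_nonneg_left hf1.le; positivity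
      _ ≤ A := by linarith

end Pool.Agent.W13
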