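import Mathlib
import Pool.Agent.W13.SumG1
import Pool.Agent.W13.SumG2

set_option autoImplicit false

open Filter

namespace Pool.Agent.W13

structure Cfg where
  σ : St
  i : Bool
  ph : Bool
  R : ℝ

def Good (c : Cfg) : Prop :=
  2 ≤ c.R ∧ ((c.ph = false ∧ SInv c.σ c.i c.R) ∨ (c.ph = true ∧ OInv c.σ c.i c.R))

def Nxt (c c' : Cfg) (a : ℕ) : Prop :=
  1 ≤ a ∧ c.R - 3 ≤ a ∧ c'.σ = upd c.σ c.i a ∧ c'.ph = !c.ph ∧ c.R ≤ c'.R ∧
    (c.ph = false → c'.R = c.R + 1) ∧ (c.ph = true → c'.i = !c.i)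

theorem exists_nxt (c : Cfg) (h : Good c) : ∃ c' a, Good c' ∧ Nxt c c' a := by
  obtain ⟨hR, ⟨hp, hS⟩ | ⟨hp, hO⟩⟩ := h
  · obtain ⟨i', a, ha1, ha2, hO⟩ := S_step hS hR
    refine ⟨⟨upd c.σ c.i a, i', true, c.R + 1⟩, a, ⟨by simp; linarith, Or.inr ⟨rfl, hO⟩⟩, ?_⟩
    refine ⟨ha1, by linarith, rfl, by rw [hp]; rfl, by simp, fun _ => rfl, fun hh => ?_⟩
    rw [hp] at hh; exact absurd hh (by decide)
  · obtain ⟨a, ha1, ha2, hS⟩ := O_step hO hR
    refine ⟨⟨upd c.σ c.i a, !c.i, false, c.R⟩, a, ⟨hR, Or.inl ⟨rfl, hS⟩⟩, ?_⟩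
    refine ⟨ha1, ha2, rfl, by rw [hp]; rfl, le_rfl, fun hh => ?_, fun _ => rfl⟩
    rw [hp] at hh; exact absurd hh (by decide)

theorem exists_run (c0 : Cfg) (h0 : Good c0) :
    ∃ (c : ℕ → Cfg) (a : ℕ → ℕ), c 0 = c0 ∧ (∀ t, Good (c t)) ∧ ∀ t, Nxt (c t) (c (t+1)) (a t) := by
  classical
  choose f g hf hg using exists_nxt
  let F : {c : Cfg // Good c} → {c : Cfg // Good c} := fun c => ⟨f c.1 c.2, hf c.1 c.2⟩
  refine ⟨fun t => (F^[t] ⟨c0, h0⟩).1, fun t => g (F^[t] ⟨c0, h0⟩).1 (F^[t] ⟨c0, h0⟩).2, rfl,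
    fun t => (F^[t] ⟨c0, h0⟩).2, fun t => ?_⟩
  have : F^[t+1] ⟨c0, h0⟩ = F (F^[t] ⟨c0, h0⟩) := Function.iterate_succ_apply' F t _
  simp only [this]
  exact hg _ _

theorem Good.base {c : Cfg} (h : Good c) : Base c.σ := by
  obtain ⟨_, ⟨_, hS⟩ | ⟨_, hO⟩⟩ := h
  · exact hS.toBase
  · exact hO.toBase

theorem Good.zbound {c : Cfg} (h : Good c) :
    |c.σ.z| * (c.σ.Q true * c.σ.Q false) ≤ 1 := by
  have key : ∀ (i : Bool) (R : ℝ), 2 ≤ R → 0 < c.σ.E i * c.σ.z →
      R * (c.σ.Q i * c.σ.Q (!i) * (c.σ.E i * c.σ.z)) ≤ 1 → |c.σ.z| * (c.σ.Q true * c.σ.Q false) ≤ 1 := by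
    intro i R hR hpos hh
    have habs : |c.σ.z| = c.σ.E i * c.σ.z := by
      have h1 : |(c.σ.E i : ℝ) * c.σ.z| = c.σ.E i * c.σ.z := abs_of_pos hpos
      rw [abs_mul] at h1
      have h2 : |(c.σ.E i : ℝ)| = 1 := by
        rcases h.base.hE i with h | h <;> rw [h] <;> simp
      rw [h2, one_mul] at h1
      exact h1
    have hQ : (c.σ.Q true : ℝ) * c.σ.Q false = c.σ.Q i * c.σ.Q (!i) := by
      cases i
      · simp [mul_comm]
      · simp
    rw [habs, hQ]
    have h3 : 0 ≤ (c.σ.Q i : ℝ) * c.σ.Q (!i) * (c.σ.E i * c.σ.z) := by positivity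
    nlinarith
  obtain ⟨hR, ⟨_, hS⟩ | ⟨_, hO⟩⟩ := h
  · exact key c.i c.R hR hS.pos hS.R
  · exact key c.i c.R hR hO.pos hO.R

/-- the contribution of a tail -/
noncomputable def W (σ : St) (j : Bool) (y : ℝ) : ℝ :=
  σ.E j * y / (σ.Q j * (σ.Q j + σ.V j * y))

theorem W_bound (σ : St) (h : Base σ) (j : Bool) (y : ℝ) (hy0 : 0 < y) (hy1 : y < 1) :
    |W σ j y| ≤ 1 / σ.Q j := by
  unfold W
  have hq : (1:ℝ) ≤ σ.Q j := by exact_mod_cast h.hQ j
  have hv : (0:ℝ) ≤ σ.V j := by positivity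
  have h2 : |(σ.E j : ℝ)| = 1 := by
    rcases h.hE j with h | h <;> rw [h] <;> simp
  rw [abs_div, abs_mul, h2, one_mul, abs_of_pos hy0,
    abs_of_pos (by positivity : (0:ℝ) < σ.Q j * (σ.Q j + σ.V j * y)), div_le_div_iff₀ (by positivity) (by positivity)]
  have h3 : (0:ℝ) ≤ σ.V j * y := by positivity
  nlinarith

theorem W_upd (σ : St) (h : Base σ) (j : Bool) (a : ℕ) (ha : 1 ≤ a) (y : ℝ) (hy0 : 0 < y) :
    W σ j (1 / (a + y)) = W (upd σ j a) j y + (σ.z - (upd σ j a).z) := by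
  unfold W upd
  simp only [Function.update_self]
  push_cast
  have hq : (1:ℝ) ≤ σ.Q j := by exact_mod_cast h.hQ j
  have hv : (0:ℝ) ≤ σ.V j := by positivity
  have ha' : (1:ℝ) ≤ a := by exact_mod_cast ha
  have h1 : (0:ℝ) < a * σ.Q j + σ.V j := by nlinarith
  have h2 : (0:ℝ) < a * σ.Q j + σ.V j + σ.Q j * y := by positivity
  have h3 : (0:ℝ) < σ.Q j := by linarith
  have h4 : (0:ℝ) < a + y := by linarith
  have e1 : (σ.Q j : ℝ) + σ.V j * (1 / (a + y)) = (a * σ.Q j + σ.V j + σ.Q j * y) / (a + y) := by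
    field_simp; ring
  rw [e1]
  field_simp
  ring

theorem W_upd_ne (σ : St) (j i : Bool) (hij : j ≠ i) (a : ℕ) (y : ℝ) :
    W (upd σ i a) j y = W σ j y := by
  unfold W upd
  simp only [Function.update_of_ne hij]

theorem main_seq (c0 : Cfg) (h0 : Good c0) :
    ∃ h : Bool → ℝ, (∀ j, 0 < h j ∧ h j < 1 ∧ GD (h j)) ∧
      c0.σ.z = W c0.σ true (h true) + W c0.σ false (h false) := by
  obtain ⟨c, a, hc0, hG, hN⟩ := exists_run c0 h0
  -- R grows
  have hRmono : ∀ t, (c t).R ≤ (c (t+1)).R := fun t => (hN t).2.2.2.2.1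
  have hR2 : ∀ t, (c t).R + 1 ≤ (c (t+2)).R := by
    intro t
    by_cases hp : (c t).ph = false
    · have := (hN t).2.2.2.2.2.1 hp
      have := hRmono (t+1)
      linarith
    · have hp' : (c (t+1)).ph = false := by
        rw [(hN t).2.2.2.1]
        simpa using hp
      have h1 := (hN (t+1)).2.2.2.2.2.1 hp'
      have h2 := hRmono t
      show (c t).R + 1 ≤ (c (t+1+1)).R
      linarith
  have hRlow : ∀ n : ℕ, (n:ℝ) ≤ (c (2*n)).R := by
    intro n
    induction n with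
    | zero => 
      have := (hG 0).1
      simp; linarith
    | succ n ih =>
      have := hR2 (2*n)
      have e : 2 * (n+1) = 2*n+2 := by ring
      rw [e]; push_cast; linarith
  have hRm : Monotone (fun t => (c t).R) := monotone_nat_of_le_succ hRmono
  have haT : Tendsto a atTop atTop := by
    rw [tendsto_atTop_atTop]
    intro b
    refine ⟨2 * (b + 3), fun t ht => ?_⟩
    have h1 := (hN t).2.1
    have h2 := hRlow (b+3)
    have h3 : (c (2*(b+3))).R ≤ (c t).R := hRm ht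
    have : (b:ℝ) ≤ a t := by
      push_cast at h2; linarith
    exact_mod_cast this
  have ha1 : ∀ t, 1 ≤ a t := fun t => (hN t).1
  have hio : ∀ (j : Bool) (t : ℕ), ∃ t', t ≤ t' ∧ (c t').i = j := by
    intro j t
    have : ∃ t1, t ≤ t1 ∧ (c t1).ph = true := by
      by_cases hp : (c t).ph = true
      · exact ⟨t, le_rfl, hp⟩
      · refine ⟨t+1, by omega, ?_⟩
        rw [(hN t).2.2.2.1]; simpa using hp
    obtain ⟨t1, ht1, hp⟩ := this
    have h2 := (hN t1).2.2.2.2.2.2 hp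
    by_cases hj : (c t1).i = j
    · exact ⟨t1, ht1, hj⟩
    · refine ⟨t1+1, by omega, ?_⟩
      rw [h2]
      cases h3 : (c t1).i <;> cases j <;> simp_all
  choose H Hpos Hlt Hc Hn using fun j : Bool => exists_tails (fun t => (c t).i = j) a ha1 (hio j)
  have HGD : ∀ j t, GD (H j t) := fun j => GD_seq (H j) (fun t => (c t).i = j) a (Hpos j) (Hlt j) (Hc j) (Hn j) (hio j) haT
  refine ⟨fun j => H j 0, fun j => ⟨Hpos j 0, Hlt j 0, HGD j 0⟩, ?_⟩
  -- conserved quantity
  have hcons : ∀ t, (c t).σ.z - (W (c t).σ true (H true t) + W (c t).σ false (H false t)) =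
      c0.σ.z - (W c0.σ true (H true 0) + W c0.σ false (H false 0)) := by
    intro t
    induction t with
    | zero => rw [hc0]
    | succ t ih =>
      rw [← ih]
      have hs := (hN t).2.2.1
      have hb := (hG t).base
      have key : ∀ j, W (c t).σ j (H j t) = W (c (t+1)).σ j (H j (t+1)) +
          (if (c t).i = j then (c t).σ.z - (c (t+1)).σ.z else 0) := by
        intro j
        by_cases hj : (c t).i = j
        · rw [if_pos hj, Hc j t hj, hs, ← hj]
          exact W_upd _ hb _ _ (ha1 t) _ (Hpos _ _)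
        · rw [if_neg hj, Hn j t hj, hs, W_upd_ne _ _ _ (fun h => hj h.symm), add_zero]
      rw [key true, key false]
      cases h3 : (c t).i
      · simp; ring
      · simp; ring
  -- growth of denominators
  have hQmono : ∀ j t, (c t).σ.Q j ≤ (c (t+1)).σ.Q j := by
    intro j t
    rw [(hN t).2.2.1]
    by_cases hj : j = (c t).i
    · subst hj
      simp only [upd, Function.update_self]
      have := ha1 t
      nlinarith
    · simp only [upd, Function.update_of_ne hj]; exact le_rfl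
  have hQm : ∀ j, Monotone (fun t => (c t).σ.Q j) := fun j => monotone_nat_of_le_succ (hQmono j)
  have hQinf : ∀ (j : Bool) (M : ℕ), ∃ t, M ≤ (c t).σ.Q j := by
    intro j M
    obtain ⟨t0, ht0⟩ := (tendsto_atTop_atTop.1 haT) 2
    induction M with
    | zero => exact ⟨0, Nat.zero_le _⟩
    | succ M ih =>
      obtain ⟨t, ht⟩ := ih
      obtain ⟨t', ht', hj⟩ := hio j (max t t0)
      refine ⟨t'+1, ?_⟩
      rw [(hN t').2.2.1, hj]
      simp only [upd, Function.update_self]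
      have h1 : M ≤ (c t').σ.Q j := ht.trans (hQm j ((le_max_left _ _).trans ht'))
      have h2 : 2 ≤ a t' := ht0 t' ((le_max_right _ _).trans ht')
      have h3 := (hG t').base.hQ j
      nlinarith
  have hfin : ∀ M : ℕ, 1 ≤ M → |c0.σ.z - (W c0.σ true (H true 0) + W c0.σ false (H false 0))| ≤ 3 / M := by
    intro M hM
    obtain ⟨t1, ht1⟩ := hQinf true M
    obtain ⟨t2, ht2⟩ := hQinf false M
    have hq1 : M ≤ (c (max t1 t2)).σ.Q true := ht1.trans (hQm true (le_max_left _ _))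
    have hq2 : M ≤ (c (max t1 t2)).σ.Q false := ht2.trans (hQm false (le_max_right _ _))
    generalize max t1 t2 = t at hq1 hq2
    rw [← hcons t]
    have hM' : (1:ℝ) ≤ M := by exact_mod_cast hM
    have hq1' : (M:ℝ) ≤ (c t).σ.Q true := by exact_mod_cast hq1
    have hq2' : (M:ℝ) ≤ (c t).σ.Q false := by exact_mod_cast hq2
    have b1 := W_bound _ (hG t).base true _ (Hpos true t) (Hlt true t)
    have b2 := W_bound _ (hG t).base false _ (Hpos false t) (Hlt false t)
    have b1' : (1:ℝ) / (c t).σ.Q true ≤ 1 / M := one_div_le_one_div_of_le (by linarith) hq1'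
    have b2' : (1:ℝ) / (c t).σ.Q false ≤ 1 / M := one_div_le_one_div_of_le (by linarith) hq2'
    have bz := (hG t).zbound
    have b3 : |(c t).σ.z| ≤ 1 / M := by
      rw [le_div_iff₀ (by linarith)]
      have h1 : (M:ℝ) ≤ (c t).σ.Q true * (c t).σ.Q false := by nlinarith
      have h2 := abs_nonneg (c t).σ.z
      nlinarith
    have e3 : (3:ℝ) / M = 1 / M + (1 / M + 1/M) := by ring
    rw [e3]
    calc _ ≤ |(c t).σ.z| + |W (c t).σ true (H true t) + W (c t).σ false (H false t)| := abs_sub _ _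
      _ ≤ |(c t).σ.z| + (|W (c t).σ true (H true t)| + |W (c t).σ false (H false t)|) := by
        gcongr; exact abs_add_le _ _
      _ ≤ _ := by
        gcongr <;> linarith
  have hz : c0.σ.z - (W c0.σ true (H true 0) + W c0.σ false (H false 0)) = 0 := by
    by_contra hne
    have hpos : 0 < |c0.σ.z - (W c0.σ true (H true 0) + W c0.σ false (H false 0))| := abs_pos.2 hne
    obtain ⟨M, hM⟩ := exists_nat_gt (3 / |c0.σ.z - (W c0.σ true (H true 0) + W c0.σ false (H false 0))|)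
    have hM1 : (1:ℝ) ≤ (M+1 : ℕ) := by push_cast; linarith [Nat.cast_nonneg (α := ℝ) M]
    have := hfin (M+1) (by omega)
    have hM0 : (0:ℝ) < (M+1 : ℕ) := by linarith
    rw [le_div_iff₀ hM0] at this
    rw [div_lt_iff₀ hpos] at hM
    have h4 : (M:ℝ) ≤ (M+1:ℕ) := by push_cast; linarith
    nlinarith
  linarith

/-- irrational case -/
theorem irr_case (x : ℝ) (hx0 : 0 < x) (hx1 : x < 1) (hirr : Irrational x) :
    ∃ g₁ g₂ : ℝ, g₁ ∈ Set.Ioo (0:ℝ) 1 ∧ g₂ ∈ Set.Ioo (0:ℝ) 1 ∧ GD g₁ ∧ GD g₂ ∧ x = g₁ + g₂ := by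
  rcases le_or_gt x (1/2) with hx | hx
  · let σ : St := ⟨fun _ => 1, fun _ => 0, fun _ => 1, x⟩
    have hB : Base σ := ⟨fun _ => le_rfl, fun _ => by simp [σ], fun _ => Or.inl rfl, hirr⟩
    have hS : SInv σ true 2 := ⟨hB, rfl, by simpa [σ] using hx0, le_rfl, by simp [σ]; linarith⟩
    obtain ⟨h, hh, hz⟩ := main_seq ⟨σ, true, false, 2⟩ ⟨le_rfl, Or.inl ⟨rfl, hS⟩⟩
    refine ⟨h true, h false, ⟨(hh true).1, (hh true).2.1⟩, ⟨(hh false).1, (hh false).2.1⟩,
      (hh true).2.2, (hh false).2.2, ?_⟩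
    simpa [W, σ] using hz
  · let σ : St := ⟨fun _ => 1, fun j => if j then 1 else 0, fun j => if j then -1 else 1, x - 1⟩
    have hB : Base σ := by
      refine ⟨fun _ => le_rfl, fun j => by cases j <;> simp [σ], fun j => by cases j <;> simp [σ], ?_⟩
      have : Irrational (x - ((1:ℚ):ℝ)) := hirr.sub_ratCast 1
      simpa [σ] using this
    have hO : OInv σ true 2 := by
      refine ⟨hB, by simp [σ], by simp [σ]; linarith, by simp [σ]; linarith, ?_, ?_⟩
      · unfold al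
        simp only [σ]
        push_cast
        have h1 : (2:ℝ) ≤ 1 / (1^2 * (-1 * (x-1))) := by
          rw [le_div_iff₀ (by linarith)]; linarith
        push_cast at h1 ⊢
        linarith
      · unfold al
        simp only [σ]
        push_cast
        have h1 : (2:ℝ) ≤ 1 / (1^2 * (-1 * (x-1))) := by
          rw [le_div_iff₀ (by linarith)]; linarith
        push_cast at h1 ⊢
        linarith
    obtain ⟨h, hh, hz⟩ := main_seq ⟨σ, true, true, 2⟩ ⟨le_rfl, Or.inr ⟨rfl, hO⟩⟩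
    have hz' : x - 1 = -(h true) / (1 + h true) + h false := by
      simpa [W, σ] using hz
    have p1 := (hh true).1
    refine ⟨1 / ((1:ℕ) + h true), h false, ⟨by positivity, ?_⟩, ⟨(hh false).1, (hh false).2.1⟩,
      GD_inv 1 _ (hh true).1.le (hh true).2.1 (hh true).2.2, (hh false).2.2, ?_⟩
    · push_cast
      rw [div_lt_one (by linarith)]; linarith
    · push_cast
      have : x = 1 + -(h true) / (1 + h true) + h false := by linarith
      rw [this]
      field_simp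
      ring

end Pool.Agent.W13
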