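import Mathlib
import Pool.Agent.W13.SumG3

set_option autoImplicit false

open Filter

namespace Pool.Agent.W13

def Pre (c d : ℕ) (sg : Bool) : Prop :=
  ∃ u v : ℕ, (if sg then c * v = d * u + 1 else c * v + 1 = d * u) ∧
    ∀ h : ℝ, 0 < h → h < 1 → GD h →
      (0 < ((c:ℝ) + u * h) / (d + v * h) ∧ ((c:ℝ) + u * h) / (d + v * h) < 1 ∧
        GD (((c:ℝ) + u * h) / (d + v * h)))

theorem pre01 : Pre 0 1 false := by
  refine ⟨1, 0, by simp, fun h h0 h1 hG => ?_⟩
  have : ((0:ℕ):ℝ) + (1:ℕ) * h = h := by simp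
  rw [this]
  simpa using ⟨h0, h1, hG⟩

theorem pre11 : Pre 1 1 true := by
  refine ⟨0, 1, by simp, fun h h0 h1 hG => ?_⟩
  have e : (((1:ℕ):ℝ) + (0:ℕ) * h) / ((1:ℕ) + (1:ℕ) * h) = 1 / ((1:ℕ) + h) := by simp
  rw [e]
  refine ⟨by positivity, ?_, GD_inv 1 h h0.le h1 hG⟩
  push_cast
  rw [div_lt_one (by linarith)]; linarith

theorem pre_step (c c' a : ℕ) (ha : 1 ≤ a) (hc : 1 ≤ c) (sg : Bool) (h : Pre c' c (!sg)) :
    Pre c (a * c + c') sg := by
  obtain ⟨u', v', he, hh⟩ := h
  refine ⟨v', a * v' + u', ?_, ?_⟩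
  · cases sg
    · simp only [Bool.not_false, if_true] at he
      simp only [Bool.false_eq_true, if_false]
      nlinarith
    · simp only [Bool.not_true, Bool.false_eq_true, if_false] at he
      simp only [if_true]
      nlinarith
  · intro y y0 y1 hG
    obtain ⟨g0, g1, gG⟩ := hh y y0 y1 hG
    have hc' : (1:ℝ) ≤ c := by exact_mod_cast hc
    have ha' : (1:ℝ) ≤ a := by exact_mod_cast ha
    have hv : (0:ℝ) ≤ v' := by positivity
    have hu : (0:ℝ) ≤ u' := by positivity
    have hcc : (0:ℝ) ≤ c' := by positivity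
    have hden : (0:ℝ) < c + v' * y := by positivity
    have e : ((c:ℝ) + v' * y) / ((a * c + c' : ℕ) + (a * v' + u' : ℕ) * y) =
        1 / (a + (c' + u' * y) / (c + v' * y)) := by
      push_cast
      have h2 : (0:ℝ) < a * c + c' + (a * v' + u') * y := by positivity
      have e1 : (a:ℝ) + (c' + u' * y) / (c + v' * y) = (a * c + c' + (a * v' + u') * y) / (c + v' * y) := by
        field_simp; ring
      rw [e1, one_div_div]
    rw [e]
    refine ⟨by positivity, ?_, GD_inv a _ g0.le g1 gG⟩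
    rw [div_lt_one (by linarith)]; linarith

theorem pre_all : ∀ d : ℕ, ∀ c : ℕ, 0 < c → c < d → Nat.Coprime c d → ∀ sg, Pre c d sg := by
  intro d
  induction d using Nat.strong_induction_on with
  | _ d ih =>
    intro c hc hcd hcop sg
    have hd : d = (d / c) * c + d % c := by
      rw [mul_comm]; exact (Nat.div_add_mod d c).symm
    have ha : 1 ≤ d / c := Nat.div_pos hcd.le hc
    by_cases hc' : d % c = 0
    · have hc1 : c = 1 := by
        have : c ∣ d := Nat.dvd_of_mod_eq_zero hc'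
        exact Nat.Coprime.eq_one_of_dvd hcop this
      subst hc1
      cases sg
      · have h2 : 1 ≤ d - 1 := by omega
        have := pre_step 1 1 (d-1) h2 le_rfl false pre11
        have e : (d - 1) * 1 + 1 = d := by omega
        rwa [e] at this
      · have := pre_step 1 0 d (by omega) le_rfl true pre01
        have e : d * 1 + 0 = d := by omega
        rwa [e] at this
    · have hlt : d % c < c := Nat.mod_lt _ hc
      have hcop' : Nat.Coprime (d % c) c := by
        rw [Nat.Coprime, ← Nat.gcd_rec]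
        exact hcop
      have := pre_step c (d % c) (d / c) ha hc sg (ih c hcd (d % c) (Nat.pos_of_ne_zero hc') hlt hcop' _)
      rwa [← hd] at this

theorem rat_case (c d : ℕ) (hc : 0 < c) (hcd : c ≤ d) (hcop : Nat.Coprime c d) :
    ∃ g₁ g₂ : ℝ, g₁ ∈ Set.Ioo (0:ℝ) 1 ∧ g₂ ∈ Set.Ioo (0:ℝ) 1 ∧ GD g₁ ∧ GD g₂ ∧
      (c:ℝ) / d = g₁ + g₂ := by
  have hP : Pre c d true := by
    rcases hcd.lt_or_eq with h | h
    · exact pre_all d c hc h hcop true
    · subst h
      have : c = 1 := by simpa using hcop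
      subst this
      exact pre11
  obtain ⟨u, v, he, hh⟩ := hP
  simp only [if_true] at he
  have hd : 1 ≤ d := by omega
  -- digits
  let a : ℕ → ℕ := fun t => (t+1) * (if Even t then 1 else d^2)
  let b : ℕ → ℕ := fun t => (t+1) * (if Even t then d^2 else 1)
  have hd2 : 1 ≤ d^2 := Nat.one_le_pow _ _ hd
  have ha1 : ∀ t, 1 ≤ a t := by
    intro t; simp only [a]; split_ifs
    · omega
    · nlinarith
  obtain ⟨h, hpos, hlt, hrec, -⟩ := exists_tails (fun _ => True) a ha1 (fun t => ⟨t, le_rfl, trivial⟩)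
  have hrec' : ∀ t, h t = 1 / (a t + h (t+1)) := fun t => hrec t trivial
  have haT : Tendsto a atTop atTop := by
    rw [tendsto_atTop_atTop]
    intro M
    refine ⟨M, fun t ht => ?_⟩
    simp only [a]; split_ifs
    · omega
    · nlinarith
  have hbT : Tendsto b atTop atTop := by
    rw [tendsto_atTop_atTop]
    intro M
    refine ⟨M, fun t ht => ?_⟩
    simp only [b]; split_ifs
    · nlinarith
    · omega
  have hGD0 : GD (h 0) := GD_seq h (fun _ => True) a hpos hlt hrec (fun t ht => absurd trivial ht)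
    (fun t => ⟨t, le_rfl, trivial⟩) haT 0
  have hdR : (1:ℝ) ≤ d := by exact_mod_cast hd
  let k : ℕ → ℝ := fun t => if Even t then h t / d^2 else d^2 * h t
  have hkrec : ∀ t, k t = 1 / (b t + k (t+1)) := by
    intro t
    have hp := hpos (t+1)
    by_cases ht : Even t
    · have ht1 : ¬ Even (t+1) := by rw [Nat.even_add_one]; simpa using ht
      simp only [k, b, if_pos ht, if_neg ht1]
      have : h t = 1 / ((t:ℝ) + 1 + h (t+1)) := by
        rw [hrec' t]; simp only [a, if_pos ht]; push_cast; ring_nf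
      rw [this]
      push_cast
      have h3 : (0:ℝ) < t + 1 + h (t+1) := by positivity
      field_simp
    · have ht1 : Even (t+1) := by rw [Nat.even_add_one]; exact ht
      simp only [k, b, if_neg ht, if_pos ht1]
      have : h t = 1 / (((t:ℝ) + 1) * d^2 + h (t+1)) := by
        rw [hrec' t]; simp only [a, if_neg ht]; push_cast; ring_nf
      rw [this]
      push_cast
      have h3 : (0:ℝ) < (t + 1) * d^2 + h (t+1) := by positivity
      have h4 : (0:ℝ) < (t + 1) * 1 + h (t+1) / d^2 := by positivity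
      field_simp
  have hkpos : ∀ t, 0 < k t := by
    intro t
    have hp := hpos t
    simp only [k]; split_ifs
    · positivity
    · positivity
  have hb1 : ∀ t, 1 ≤ b t := by
    intro t; simp only [b]; split_ifs
    · nlinarith
    · omega
  have hklt : ∀ t, k t < 1 := by
    intro t
    rw [hkrec t]
    have h1 : (1:ℝ) ≤ b t := by exact_mod_cast hb1 t
    have h2 := hkpos (t+1)
    rw [div_lt_one (by linarith)]; linarith
  have hGDk : GD (k 1) := GD_seq k (fun _ => True) b hkpos hklt (fun t _ => hkrec t)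
    (fun t ht => absurd trivial ht) (fun t => ⟨t, le_rfl, trivial⟩) hbT 1
  obtain ⟨g0, g1, gG⟩ := hh (h 0) (hpos 0) (hlt 0) hGD0
  refine ⟨((c:ℝ) + u * h 0) / (d + v * h 0), 1 / ((d * v + d^2 : ℕ) + k 1), ⟨g0, g1⟩, ⟨?_, ?_⟩, gG,
    GD_inv _ _ (hkpos 1).le (hklt 1) hGDk, ?_⟩
  · have := hkpos 1
    positivity
  · have h1 : (1:ℝ) ≤ (d * v + d^2 : ℕ) := by
      have : 1 ≤ d * v + d^2 := by nlinarith
      exact_mod_cast this
    have h2 := hkpos 1
    rw [div_lt_one (by linarith)]; linarith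
  · have hk0 : k 0 = h 0 / d^2 := by simp [k]
    have hk0' := hkrec 0
    have hb0 : (b 0 : ℝ) = d^2 := by simp [b]
    rw [hk0, hb0] at hk0'
    have hp0 := hpos 0
    have hk1 := hkpos 1
    -- k 1 = d^2 / h 0 - d^2
    have e1 : k 1 = d^2 / h 0 - d^2 := by
      have h3 : (0:ℝ) < d^2 + k (0+1) := by
        have := hkpos (0+1); positivity
      rw [eq_div_iff h3.ne'] at hk0'
      have h5 : (d:ℝ)^2 + k (0+1) = d^2 / h 0 := by
        have hd0 : (d:ℝ)^2 ≠ 0 := by positivity
        field_simp at hk0' ⊢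
        linarith
      simp only [zero_add] at h5
      linarith
    rw [e1]
    push_cast
    have he' : (c:ℝ) * v = d * u + 1 := by exact_mod_cast he
    have h6 : (0:ℝ) < d + v * h 0 := by positivity
    have h7 : (d:ℝ) * v + d^2 + (d^2 / h 0 - d^2) = d * (d + v * h 0) / h 0 := by
      field_simp; ring
    rw [h7, one_div_div]
    have hd0 : (0:ℝ) < d := by linarith
    rw [div_add_div _ _ h6.ne' (by positivity), div_eq_div_iff hd0.ne' (by positivity)]
    linear_combination ((d:ℝ) + v * h 0) * d * h 0 * he'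

theorem sumG (x : ℝ) (hx0 : 0 < x) (hx1 : x ≤ 1) :
    ∃ g₁ g₂ : ℝ, g₁ ∈ Set.Ioo (0:ℝ) 1 ∧ g₂ ∈ Set.Ioo (0:ℝ) 1 ∧ GD g₁ ∧ GD g₂ ∧ x = g₁ + g₂ := by
  by_cases hirr : Irrational x
  · have : x ≠ 1 := by
      rintro rfl
      exact hirr ⟨1, by simp⟩
    exact irr_case x hx0 (lt_of_le_of_ne hx1 this) hirr
  · rw [Irrational, not_not] at hirr
    obtain ⟨r, hr⟩ := hirr
    have hr0 : 0 < r := by
      have : (0:ℝ) < r := by rw [hr]; exact hx0
      exact_mod_cast this
    have hr1 : r ≤ 1 := by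
      have : (r:ℝ) ≤ 1 := by rw [hr]; exact hx1
      exact_mod_cast this
    have hnum : 0 < r.num := Rat.num_pos.2 hr0
    have hle : r.num ≤ r.den := by
      have := Rat.num_div_den r
      have hd : (0:ℚ) < r.den := by exact_mod_cast r.pos
      rw [← this, div_le_one hd] at hr1
      exact_mod_cast hr1
    have hnat : ((r.num.natAbs : ℕ) : ℤ) = r.num := Int.natAbs_of_nonneg hnum.le
    have hcop : Nat.Coprime r.num.natAbs r.den := r.reduced
    obtain ⟨g₁, g₂, h1, h2, h3, h4, h5⟩ := rat_case r.num.natAbs r.den (by omega) (by omega) hcop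
    refine ⟨g₁, g₂, h1, h2, h3, h4, ?_⟩
    rw [← h5, ← hr]
    have : (r:ℝ) = (r.num : ℝ) / r.den := Rat.cast_def r
    rw [this]
    congr 1
    have h9 : ((r.num.natAbs : ℤ) : ℝ) = (r.num : ℝ) := by rw [hnat]
    rw [Int.cast_natCast] at h9
    exact h9.symm

end Pool.Agent.W13
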